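import Pool.Agent.Lib.helper7.TP2

set_option autoImplicit false

namespace Pool.Agent.Results.MP_babce1_al.No

open Pool.Agent.Lib.helper7.TPA

universe u

/-- The Freiheitssatz fails for transposed Poisson algebras in characteristic zero: for every
`n = m + 3 ≥ 3` the free algebra `T_n` exists, and in it there is `f ∉ T_{n-1}` whose ideal contains
a nonzero element of `T_{n-1}`. -/
theorem result (F : Type u) [Field F] [CharZero F] (m : ℕ) :
    (∃ (A : Type u) (_ : AddCommGroup A) (_ : Module F A) (P : TP F A) (x : Fin (m + 3) → A),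
      IsFree P x) ∧
    ∀ (A : Type u) [AddCommGroup A] [Module F A] (P : TP F A) (x : Fin (m + 3) → A), IsFree P x →
      ∃ f, f ∉ subalg P (Set.range fun i : Fin (m + 2) => x i.castSucc) ∧
        ∃ g, g ≠ 0 ∧ g ∈ idl P f ∧
          g ∈ subalg P (Set.range fun i : Fin (m + 2) => x i.castSucc) :=
  ⟨⟨Fr F (m + 3), inferInstance, inferInstance, frTP F (m + 3), _, frTP_free F (m + 3)⟩,
    fun _ _ _ P x hx => main P m x hx⟩

end Pool.Agent.Results.MP_babce1_al.No
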